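import Pool.Agent.Q123.VNum2

set_option autoImplicit false

namespace Pool.Agent.Results.MP_ad771b_al.SlopeThree

open MvPolynomial Pool.Agent.Q123

/-- the set of the primes that are associated to `I^k` for all large `k` -/
def stablePrimes {R : Type*} [CommRing R] (I : Ideal R) : Set (Ideal R) :=
  {p | ∃ N : ℕ, ∀ k ≥ N, IsAssociated (I ^ k) p}

/-- the ideal `(a² b, b c, c d²)` of `K[a, b, c, d]` -/
noncomputable def theIdeal (K : Type*) [Field K] : Ideal (MvPolynomial (Fin 4) K) :=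
  Ideal.span {X 0 ^ 2 * X 1, X 1 * X 2, X 2 * X 3 ^ 2}

/-- the prime `(b, c)` -/
noncomputable def thePrime (K : Type*) [Field K] : Ideal (MvPolynomial (Fin 4) K) :=
  Ideal.span {X 1, X 2}

section

variable {K : Type*} [Field K]

/-- the three superadditive functions describing the powers -/
def φ₁ (u : Fin 4 →₀ ℕ) : ℕ := u 0 / 2 + u 2
def φ₂ (u : Fin 4 →₀ ℕ) : ℕ := u 1 + u 2
def φ₃ (u : Fin 4 →₀ ℕ) : ℕ := u 1 + u 3 / 2

theorem hφ₁ (u v : Fin 4 →₀ ℕ) : φ₁ u + φ₁ v ≤ φ₁ (u + v) := by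
  simp only [φ₁, Finsupp.add_apply]; omega
theorem hφ₂ (u v : Fin 4 →₀ ℕ) : φ₂ u + φ₂ v ≤ φ₂ (u + v) := by
  simp only [φ₂, Finsupp.add_apply]; omega
theorem hφ₃ (u v : Fin 4 →₀ ℕ) : φ₃ u + φ₃ v ≤ φ₃ (u + v) := by
  simp only [φ₃, Finsupp.add_apply]; omega

theorem theIdeal_le (φ : (Fin 4 →₀ ℕ) → ℕ) (hφ : ∀ u v, φ u + φ v ≤ φ (u + v))
    (h1 : 1 ≤ φ (Finsupp.single 0 2 + Finsupp.single 1 1))
    (h2 : 1 ≤ φ (Finsupp.single 1 1 + Finsupp.single 2 1))
    (h3 : 1 ≤ φ (Finsupp.single 2 1 + Finsupp.single 3 2)) :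
    theIdeal K ≤ supIdeal K φ hφ 1 := by
  unfold theIdeal
  rw [Ideal.span_le]
  intro f hf
  simp only [Set.mem_insert_iff, Set.mem_singleton_iff] at hf
  show f ∈ supIdeal K φ hφ 1
  rcases hf with rfl | rfl | rfl
  · rw [X_pow_eq_monomial]
    simp only [X, monomial_mul, mul_one]
    rwa [monomial_mem_supIdeal]
  · simp only [X, monomial_mul, mul_one]
    rwa [monomial_mem_supIdeal]
  · rw [X_pow_eq_monomial]
    simp only [X, monomial_mul, mul_one]
    rwa [monomial_mem_supIdeal]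

theorem pow_le₁ (k : ℕ) : theIdeal K ^ k ≤ supIdeal K φ₁ hφ₁ k := by
  have := pow_le_supIdeal (theIdeal_le (K := K) φ₁ hφ₁ (by simp [φ₁]) (by simp [φ₁])
    (by simp [φ₁])) k
  rwa [mul_one] at this
theorem pow_le₂ (k : ℕ) : theIdeal K ^ k ≤ supIdeal K φ₂ hφ₂ k := by
  have := pow_le_supIdeal (theIdeal_le (K := K) φ₂ hφ₂ (by simp [φ₂]) (by simp [φ₂])
    (by simp [φ₂])) k
  rwa [mul_one] at this
theorem pow_le₃ (k : ℕ) : theIdeal K ^ k ≤ supIdeal K φ₃ hφ₃ k := by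
  have := pow_le_supIdeal (theIdeal_le (K := K) φ₃ hφ₃ (by simp [φ₃]) (by simp [φ₃])
    (by simp [φ₃])) k
  rwa [mul_one] at this

theorem monomial_mem {k : ℕ} {u : Fin 4 →₀ ℕ} (h1 : k ≤ φ₁ u) (h2 : k ≤ φ₂ u) (h3 : k ≤ φ₃ u) :
    monomial u (1 : K) ∈ theIdeal K ^ k := by
  simp only [φ₁, φ₂, φ₃] at h1 h2 h3
  -- the numbers of factors of each kind
  obtain ⟨α, β, γ, e0, e1, e2, e3, e4⟩ : ∃ α β γ : ℕ, 2 * α ≤ u 0 ∧ α + β ≤ u 1 ∧ β + γ ≤ u 2 ∧
      2 * γ ≤ u 3 ∧ α + β + γ = k := by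
    have hx : ∃ α β γ : ℕ, 2 * α ≤ u 0 ∧ α + β ≤ u 1 ∧ β + γ ≤ u 2 ∧
      2 * γ ≤ u 3 ∧ k ≤ α + β + γ := by
      refine ⟨min (u 0 / 2) (u 1), min (u 1 - min (u 0 / 2) (u 1)) (u 2 - min (u 3 / 2) (u 2)),
        min (u 3 / 2) (u 2), ?_, ?_, ?_, ?_, ?_⟩ <;> omega
    obtain ⟨α, β, γ, h⟩ := hx
    refine ⟨min α k, min β (k - min α k), min γ (k - min α k - min β (k - min α k)), ?_⟩
    omega
  have hprod : (X 0 ^ 2 * X 1) ^ α * (X 1 * X 2) ^ β * (X 2 * X 3 ^ 2) ^ γ ∈ theIdeal K ^ k := by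
    rw [← e4, pow_add, pow_add]
    refine Ideal.mul_mem_mul (Ideal.mul_mem_mul ?_ ?_) ?_
    · exact Ideal.pow_mem_pow (Ideal.subset_span (by simp)) _
    · exact Ideal.pow_mem_pow (Ideal.subset_span (by simp)) _
    · exact Ideal.pow_mem_pow (Ideal.subset_span (by simp)) _
  have hu : monomial u (1 : K) = X 0 ^ (u 0) * X 1 ^ (u 1) * X 2 ^ (u 2) * X 3 ^ (u 3) := by
    rw [monomial_eq, C_1, one_mul, Finsupp.prod_fintype _ _ (by simp), Fin.prod_univ_four]
  have hu' : monomial u (1 : K) = (X 0 ^ (u 0 - 2 * α) * X 1 ^ (u 1 - (α + β)) *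
      X 2 ^ (u 2 - (β + γ)) * X 3 ^ (u 3 - 2 * γ)) *
      ((X 0 ^ 2 * X 1) ^ α * (X 1 * X 2) ^ β * (X 2 * X 3 ^ 2) ^ γ) := by
    rw [hu]
    conv_lhs =>
      rw [← Nat.sub_add_cancel e0, ← Nat.sub_add_cancel e1, ← Nat.sub_add_cancel e2,
        ← Nat.sub_add_cancel e3]
    ring
  rw [hu']
  exact Ideal.mul_mem_left _ _ hprod

theorem mem_pow_iff {k : ℕ} {f : MvPolynomial (Fin 4) K} :
    f ∈ theIdeal K ^ k ↔ ∀ u ∈ f.support, k ≤ φ₁ u ∧ k ≤ φ₂ u ∧ k ≤ φ₃ u :=
  ⟨fun h u hu => ⟨pow_le₁ k h u hu, pow_le₂ k h u hu, pow_le₃ k h u hu⟩,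
    fun h => mem_of_forall_monomial_mem fun u hu =>
      monomial_mem (h u hu).1 (h u hu).2.1 (h u hu).2.2⟩

/-- the weight counting `b` and `c` -/
def w : Fin 4 → ℕ := ![0, 1, 1, 0]

theorem weight_w (u : Fin 4 →₀ ℕ) : Finsupp.weight w u = φ₂ u := by
  rw [Finsupp.weight_apply, Finsupp.sum_fintype _ _ (by simp), Fin.sum_univ_four]
  simp [w, φ₂]

theorem thePrime_eq : thePrime K = wtIdeal K w 1 := by
  classical
  have : thePrime K = Ideal.span (X '' {1, 2} : Set (MvPolynomial (Fin 4) K)) := by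
    unfold thePrime
    rw [Set.image_pair]
  rw [this]
  ext f
  rw [mem_span_X_image_iff, mem_wtIdeal]
  refine forall₂_congr fun u _ => ?_
  rw [weight_w]
  simp [φ₂]
  omega

/-- the witness `a^{2k} d² b^{k-1}` -/
noncomputable def wit (k : ℕ) : Fin 4 →₀ ℕ :=
  Finsupp.single 0 (2 * k) + Finsupp.single 1 (k - 1) + Finsupp.single 3 2

theorem wit_colon {k : ℕ} (hk : 1 ≤ k) (g : MvPolynomial (Fin 4) K) :
    g ∈ thePrime K ↔ g * monomial (wit k) 1 ∈ theIdeal K ^ k := by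
  classical
  have e0 : wit k 0 = 2 * k := by simp [wit]
  have e1 : wit k 1 = k - 1 := by simp [wit]
  have e2 : wit k 2 = 0 := by simp [wit]
  have e3 : wit k 3 = 2 := by simp [wit]
  rw [thePrime_eq, mem_wtIdeal, mem_pow_iff]
  constructor
  · intro h u hu
    obtain ⟨v, hv, t, ht, rfl⟩ := Finset.mem_add.1 (support_mul _ _ hu)
    rw [support_monomial_one, Finset.mem_singleton] at ht
    subst ht
    have := h v hv
    rw [weight_w] at this
    simp only [φ₁, φ₂, φ₃, Finsupp.add_apply, e0, e1, e2, e3] at this ⊢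
    omega
  · intro h u hu
    have hu' : u + wit k ∈ (g * monomial (wit k) 1).support := by
      rw [mem_support_iff, coeff_mul_monomial, mul_one]
      exact mem_support_iff.1 hu
    have := h _ hu'
    rw [weight_w]
    simp only [φ₁, φ₂, φ₃, Finsupp.add_apply, e0, e1, e2, e3] at this ⊢
    omega

theorem thePrime_isPrime : (thePrime K).IsPrime := by
  rw [thePrime_eq]
  exact wtIdeal_one_isPrime _

theorem assoc {k : ℕ} (hk : 1 ≤ k) : IsAssociated (theIdeal K ^ k) (thePrime K) :=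
  ⟨thePrime_isPrime, _, wit_colon hk⟩

theorem X1_mem : (X 1 : MvPolynomial (Fin 4) K) ∈ thePrime K := Ideal.subset_span (by simp)
theorem X2_mem : (X 2 : MvPolynomial (Fin 4) K) ∈ thePrime K := Ideal.subset_span (by simp)

theorem maximal_assoc {k : ℕ} {q : Ideal (MvPolynomial (Fin 4) K)}
    (hq : IsAssociated (theIdeal K ^ k) q) (hle : thePrime K ≤ q) : q ≤ thePrime K := by
  obtain ⟨hp, g, hg⟩ := hq
  intro h hh
  by_contra hne
  apply hp.ne_top
  rw [Ideal.eq_top_iff_one, hg, one_mul, mem_pow_iff]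
  have h1 := hle X1_mem
  have h2 := hle X2_mem
  rw [hg] at h1 h2 hh
  have h3 : g ∈ wtIdeal K w k := by
    apply mem_wtIdeal_of_mul (s := h)
    · rw [← thePrime_eq]; exact hne
    · intro u hu
      rw [weight_w]
      exact (mem_pow_iff.1 hh u hu).2.1
  intro u hu
  have a1 := (mem_pow_iff.1 h1 _ (support_X_mul' 1 g hu)).1
  have a2 := (mem_pow_iff.1 h2 _ (support_X_mul' 2 g hu)).2.2
  have a3 := h3 u hu
  rw [weight_w] at a3
  refine ⟨?_, a3, ?_⟩
  · simpa [φ₁] using a1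
  · simpa [φ₃] using a2

theorem localV_eq {k : ℕ} (hk : 1 ≤ k) :
    localV (theIdeal K ^ k) (thePrime K) = 3 * k + 1 := by
  classical
  apply sInf_eq_of
  · refine ⟨monomial (wit k) 1, isHomogeneous_monomial _ ?_, wit_colon hk⟩
    rw [wit, map_add, map_add, Finsupp.degree_single, Finsupp.degree_single,
      Finsupp.degree_single]
    omega
  · rintro d ⟨f, hf, hpf⟩
    have hfk : f ∉ wtIdeal K w k := by
      intro hfk
      have h1 : (X 0 ^ (2 * k) * X 3 ^ (2 * k) : MvPolynomial (Fin 4) K) ∈ thePrime K := by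
        rw [hpf, mem_pow_iff]
        intro u hu
        obtain ⟨t, ht, v, hv, rfl⟩ := Finset.mem_add.1 (support_mul _ _ hu)
        have ht' : t = Finsupp.single 0 (2 * k) + Finsupp.single 3 (2 * k) := by
          have : (X 0 ^ (2 * k) * X 3 ^ (2 * k) : MvPolynomial (Fin 4) K) =
              monomial (Finsupp.single 0 (2 * k) + Finsupp.single 3 (2 * k)) 1 := by
            rw [X_pow_eq_monomial, X_pow_eq_monomial, monomial_mul, mul_one]
          rw [this, support_monomial_one, Finset.mem_singleton] at ht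
          exact ht
        have h2 := hfk v hv
        rw [weight_w] at h2
        rw [ht']
        simp only [φ₁, φ₂, φ₃, Finsupp.add_apply] at h2 ⊢
        simp
        omega
      have h2 : ∀ i : Fin 4, w i = 0 → (X i : MvPolynomial (Fin 4) K) ∉ thePrime K := by
        intro i hi h
        have h' : monomial (Finsupp.single i 1) (1 : K) ∈ thePrime K := h
        rw [thePrime_eq, monomial_mem_wtIdeal, Finsupp.weight_single, hi] at h'
        simp at h'
      rcases thePrime_isPrime.mem_or_mem h1 with h | h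
      · exact h2 0 rfl (thePrime_isPrime.mem_of_pow_mem _ h)
      · exact h2 3 rfl (thePrime_isPrime.mem_of_pow_mem _ h)
    rw [mem_wtIdeal] at hfk
    push Not at hfk
    obtain ⟨u, hu, hlt⟩ := hfk
    rw [weight_w] at hlt
    have h1 := X1_mem (K := K)
    have h2 := X2_mem (K := K)
    rw [hpf] at h1 h2
    have a1 := mem_pow_iff.1 h1 _ (support_X_mul' 1 f hu)
    have a2 := mem_pow_iff.1 h2 _ (support_X_mul' 2 f hu)
    have hd := degree_of_mem_support hf hu
    rw [Finsupp.degree_eq_sum, Fin.sum_univ_four] at hd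
    simp [φ₁, φ₂, φ₃] at a1 a2 hlt
    omega

theorem isHomogeneous_gen (f : MvPolynomial (Fin 4) K)
    (hf : f ∈ ({X 0 ^ 2 * X 1, X 1 * X 2, X 2 * X 3 ^ 2} : Set (MvPolynomial (Fin 4) K))) :
    ∃ d, f.IsHomogeneous d := by
  simp only [Set.mem_insert_iff, Set.mem_singleton_iff] at hf
  rcases hf with rfl | rfl | rfl
  · exact ⟨_, ((isHomogeneous_X K (0 : Fin 4)).pow 2).mul (isHomogeneous_X K (1 : Fin 4))⟩
  · exact ⟨_, (isHomogeneous_X K (1 : Fin 4)).mul (isHomogeneous_X K (2 : Fin 4))⟩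
  · exact ⟨_, (isHomogeneous_X K (2 : Fin 4)).mul ((isHomogeneous_X K (3 : Fin 4)).pow 2)⟩

theorem initialDegree_eq : initialDegree (theIdeal K) = 2 := by
  apply sInf_eq_of
  · refine ⟨X 1 * X 2, Ideal.subset_span (by simp), ?_, ?_⟩
    · exact mul_ne_zero (X_ne_zero _) (X_ne_zero _)
    · exact (isHomogeneous_X K (1 : Fin 4)).mul (isHomogeneous_X K (2 : Fin 4))
  · rintro d ⟨f, hf, hf0, hd⟩
    obtain ⟨u, hu⟩ := support_nonempty.2 hf0
    have h := degree_of_mem_support hd hu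
    rw [Finsupp.degree_eq_sum, Fin.sum_univ_four] at h
    rw [← pow_one (theIdeal K)] at hf
    have := mem_pow_iff.1 hf u hu
    simp only [φ₁, φ₂, φ₃] at this
    omega

end

/-- For every field `K`, the ideal `I = (a² b, b c, c d²)` of `K[a,b,c,d]` and the prime
`p = (b, c)`: `p` is maximal among the stable primes of `I`, the initial degree of `I` is `2`, and
the local v-number of `I^k` at `p` is `3k + 1` for all `k ≥ 1`, so that its slope is `3`. -/
theorem result (K : Type*) [Field K] :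
    Maximal (fun p => p ∈ stablePrimes (theIdeal K)) (thePrime K) ∧
    initialDegree (theIdeal K) = 2 ∧
    (∀ k : ℕ, 1 ≤ k → localV (theIdeal K ^ k) (thePrime K) = 3 * k + 1) ∧
    Filter.Tendsto (fun k : ℕ => (localV (theIdeal K ^ k) (thePrime K) : ℝ) / k)
      Filter.atTop (nhds 3) := by
  refine ⟨⟨⟨1, fun k hk => assoc hk⟩, ?_⟩, initialDegree_eq, fun k hk => localV_eq hk, ?_⟩
  · rintro q ⟨N, hN⟩ hle
    exact maximal_assoc (hN N le_rfl) hle
  · have h1 : Filter.Tendsto (fun k : ℕ => (3 : ℝ) + 1 / (k : ℝ)) Filter.atTop (nhds (3 + 0)) :=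
      tendsto_const_nhds.add tendsto_one_div_atTop_nhds_zero_nat
    rw [add_zero] at h1
    refine h1.congr' ?_
    filter_upwards [Filter.eventually_ge_atTop 1] with k hk
    rw [localV_eq hk]
    have : (k : ℝ) ≠ 0 := by positivity
    push_cast
    field_simp

end Pool.Agent.Results.MP_ad771b_al.SlopeThree
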